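import Mathlib
import Pool.Agent.Helper24.HR2.NumE

/-!
MP_16b0ee, project HR2, module R13 (Es part): a computable two-sided enclosure of the main
constant `Es s b`, for `s` with `re s = r`, `|s|^2 = q`, all data rational.

The check `esQ r q b n c c' Elo Ehi` computes `en s b n` exactly and verifies the hypotheses of
`Es_bounds` (two inequalities for all `k ≥ n`) by the nonnegativity of the coefficients of two
explicit polynomials in `x = k - n`.
-/

set_option autoImplicit false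

open Filter Topology
open scoped Real

namespace Pool.Agent.Helper53.HR2

open Pool.Agent.Helper24.HR2
open Pool.Agent.Helper22.Half

/-! rational polynomials as lists of coefficients -/

/-- the value of a polynomial -/
noncomputable def pev : List ℚ → ℝ → ℝ
  | [], _ => 0
  | a :: l, x => (a : ℝ) + x * pev l x

/-- sum -/
def padd : List ℚ → List ℚ → List ℚ
  | [], l => l
  | a :: l, [] => a :: l
  | a :: l, b :: m => (a + b) :: padd l m

/-- scalar multiple -/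
def psm (t : ℚ) : List ℚ → List ℚ
  | [] => []
  | a :: l => (t * a) :: psm t l

/-- multiplication by `x + a` -/
def plin (a : ℚ) (l : List ℚ) : List ℚ := padd (psm a l) (0 :: l)

/-- multiplication by `x ^ 2 + u x + v` -/
def pquad (u v : ℚ) (l : List ℚ) : List ℚ := padd (psm v l) (0 :: padd (psm u l) (0 :: l))

theorem pev_add (x : ℝ) : ∀ l m : List ℚ, pev (padd l m) x = pev l x + pev m x
  | [], m => by simp [padd, pev]
  | a :: l, [] => by simp [padd, pev]
  | a :: l, b :: m => by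
    simp only [padd, pev, pev_add x l m]
    push_cast
    ring

theorem pev_sm (x : ℝ) (t : ℚ) : ∀ l : List ℚ, pev (psm t l) x = t * pev l x
  | [] => by simp [psm, pev]
  | a :: l => by
    simp only [psm, pev, pev_sm x t l]
    push_cast
    ring

theorem pev_lin (x : ℝ) (a : ℚ) (l : List ℚ) : pev (plin a l) x = (x + a) * pev l x := by
  rw [plin, pev_add, pev_sm]
  simp only [pev]
  push_cast
  ring

theorem pev_quad (x : ℝ) (u v : ℚ) (l : List ℚ) :
    pev (pquad u v l) x = (x ^ 2 + u * x + v) * pev l x := by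
  rw [pquad, pev_add, pev_sm]
  simp only [pev]
  rw [pev_add, pev_sm]
  simp only [pev]
  push_cast
  ring

theorem pev_nonneg {x : ℝ} (hx : 0 ≤ x) : ∀ {l : List ℚ}, (l.all fun a => decide (0 ≤ a)) = true →
    0 ≤ pev l x
  | [], _ => le_refl _
  | a :: l, h => by
    rw [List.all_cons, Bool.and_eq_true, decide_eq_true_eq] at h
    have h1 : (0 : ℝ) ≤ (a : ℝ) := by exact_mod_cast h.1
    have h2 := pev_nonneg hx h.2
    simp only [pev]
    positivity

/-! the two polynomials -/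

/-- `N(k) k / ...`: the numerator side, in `x = k - n` -/
def lhsP (r q b n : ℚ) : List ℚ :=
  pquad (2 * n - 2 * r) (n ^ 2 - 2 * r * n + q)
    (pquad (2 * n + 4 + 2 * r) (n ^ 2 + (4 + 2 * r) * n + 4 + 4 * r + q)
      (plin (n + b + 3) [n, 1]))

/-- the denominator side, in `x = k - n` -/
def rhsP (r b n c : ℚ) : List ℚ :=
  pquad (2 * n + 1) (n ^ 2 + n + c)
    (plin (n + b + 1 - 2 * r) (plin (n + 2 + 2 * r) (plin (n + 2) [n + 1, 1])))

theorem pev_lhs (r q b n : ℚ) (x : ℝ) : pev (lhsP r q b n) x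
    = ((x + n) ^ 2 - 2 * r * (x + n) + q) * ((x + n + 2) * (x + n + 2 + 2 * r) + q)
      * (x + n + b + 3) * (x + n) := by
  simp only [lhsP, pev_quad, pev_lin, pev]
  push_cast
  ring

theorem pev_rhs (r b n c : ℚ) (x : ℝ) : pev (rhsP r b n c) x
    = (x + n + 1) * (x + n + 2) * (x + n + 2 + 2 * r) * (x + n + b + 1 - 2 * r)
      * ((x + n) * (x + n + 1) + c) := by
  simp only [rhsP, pev_quad, pev_lin, pev]
  push_cast
  ring

/-- the quotients -/
def qnQ (r q b k : ℚ) : ℚ :=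
  (k ^ 2 - 2 * r * k + q) * ((k + 2) * (k + 2 + 2 * r) + q) * (k + b + 3)
    / ((k + 1) ^ 2 * ((k + 2) * (k + 2 + 2 * r)) * (k + b + 1 - 2 * r))

/-- the approximations -/
def enQ (r q b : ℚ) : ℕ → ℚ
  | 0 => 1 + 2 * r + q
  | n + 1 => enQ r q b n * qnQ r q b n

/-- the check -/
def esQ (r q b : ℚ) (n : ℕ) (c c' Elo Ehi : ℚ) : Bool :=
  decide (1 ≤ n) && decide (c < n) && decide (-(n : ℚ) ≤ c')
    && (padd (rhsP r b n c) (psm (-1) (lhsP r q b n))).all (fun a => decide (0 ≤ a))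
    && (padd (lhsP r q b n) (psm (-1) (rhsP r b n c'))).all (fun a => decide (0 ≤ a))
    && decide (0 ≤ Elo) && decide (Elo ≤ enQ r q b n * (1 + c' / n))
    && decide (enQ r q b n / (1 - c / n) ≤ Ehi)

theorem qn_eq {s : ℂ} {r q b : ℚ} (hr : s.re = r) (hq : ‖s‖ ^ 2 = q) (hs : ‖s‖ < 1) (k : ℕ) :
    qn s b k = (qnQ r q b k : ℚ) := by
  have h1 := re_gt hs
  rw [hr] at h1
  have hk : (0 : ℝ) ≤ k := Nat.cast_nonneg k
  have h2 : (k : ℝ) + 2 + 2 * (r : ℝ) ≠ 0 := by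
    have : 0 < (k : ℝ) + 2 + 2 * (r : ℝ) := by linarith
    exact this.ne'
  have h3 : (k : ℝ) + 2 ≠ 0 := by positivity
  have h4 : (k : ℝ) + 1 ≠ 0 := by positivity
  unfold qn qnQ
  rw [hr, hq]
  push_cast
  have e : (1 : ℝ) + (q : ℝ) / (((k : ℝ) + 2) * (k + 2 + 2 * r))
      = (((k : ℝ) + 2) * (k + 2 + 2 * r) + q) / (((k : ℝ) + 2) * (k + 2 + 2 * r)) := by
    field_simp
  rw [e, div_mul_div_comm, div_mul_div_comm]

theorem en_eq {s : ℂ} {r q b : ℚ} (hr : s.re = r) (hq : ‖s‖ ^ 2 = q) (hs : ‖s‖ < 1)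
    (hσ : (0 : ℝ) < b + 1 - 2 * s.re) (n : ℕ) : en s b n = (enQ r q b n : ℚ) := by
  induction n with
  | zero =>
    have h1 : ‖1 + s‖ ^ 2 = 1 + 2 * s.re + ‖s‖ ^ 2 := by
      rw [← Complex.normSq_eq_norm_sq, ← Complex.normSq_eq_norm_sq, Complex.normSq_apply,
        Complex.normSq_apply]
      simp
      ring
    simp only [en, enQ, pq_zero, kap_zero, mul_one, div_one]
    rw [h1, hr, hq]
    push_cast
    ring
  | succ n ih =>
    rw [en_succ hσ, ih, qn_eq hr hq hs, enQ]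
    push_cast
    rfl

theorem pev_diff (l m : List ℚ) (x : ℝ) : pev (padd l (psm (-1) m)) x = pev l x - pev m x := by
  rw [pev_add, pev_sm]
  push_cast
  ring

/-- the enclosure of the main constant -/
theorem esQ_sound {s : ℂ} {r q b : ℚ} {n : ℕ} {c c' Elo Ehi : ℚ} (hr : s.re = r)
    (hq : ‖s‖ ^ 2 = q) (hs0 : s ≠ 0) (hs : ‖s‖ < 1) (hb : (0 : ℝ) < b)
    (hσ : (0 : ℝ) < b + 1 - 2 * s.re) (h : esQ r q b n c c' Elo Ehi = true) :
    (Elo : ℝ) ≤ Es s b ∧ Es s b ≤ Ehi ∧ (0 : ℝ) ≤ Elo := by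
  simp only [esQ, Bool.and_eq_true, decide_eq_true_eq] at h
  obtain ⟨⟨⟨⟨⟨⟨⟨h1, h2⟩, h3⟩, h4⟩, h5⟩, h6⟩, h7⟩, h8⟩ := h
  have hn1 : (1 : ℝ) ≤ n := by exact_mod_cast h1
  have hre := re_gt hs
  have hre' : -1 < (r : ℝ) := by rw [← hr]; exact hre
  have hσ' : (0 : ℝ) < b + 1 - 2 * r := by rw [← hr]; exact hσ
  have key : ∀ k : ℕ, n ≤ k → ∃ x : ℝ, 0 ≤ x ∧ (x + ((n : ℚ) : ℝ)) = k := by
    intro k hk
    refine ⟨(k : ℝ) - n, ?_, ?_⟩
    · have : (n : ℝ) ≤ k := by exact_mod_cast hk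
      linarith
    · push_cast
      ring
  have hqU : ∀ k : ℕ, n ≤ k → qn s b k ≤ 1 + (c : ℝ) / ((k : ℝ) * (k + 1)) := by
    intro k hk
    obtain ⟨x, hx, hxk⟩ := key k hk
    have hp := pev_nonneg hx h4
    rw [pev_diff, pev_lhs, pev_rhs, hxk] at hp
    have hk1 : (1 : ℝ) ≤ k := by
      have : (n : ℝ) ≤ k := by exact_mod_cast hk
      linarith
    have hk0 : (0 : ℝ) < k := by linarith
    have p1 : (0 : ℝ) < (k : ℝ) + 2 + 2 * r := by linarith
    have p2 : (0 : ℝ) < (k : ℝ) + b + 1 - 2 * r := by linarith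
    have p3 : (0 : ℝ) < (k : ℝ) + 1 := by linarith
    have p4 : (0 : ℝ) < (k : ℝ) + 2 := by linarith
    rw [qn_eq hr hq hs]
    unfold qnQ
    push_cast
    have e : (1 : ℝ) + (c : ℝ) / ((k : ℝ) * (k + 1))
        = ((k : ℝ) * (k + 1) + c) / ((k : ℝ) * (k + 1)) := by
      field_simp
    rw [e, div_le_div_iff₀ (by positivity) (by positivity)]
    nlinarith [mul_nonneg hp p3.le]
  have hqL : ∀ k : ℕ, n ≤ k → 1 + (c' : ℝ) / ((k : ℝ) * (k + 1)) ≤ qn s b k := by
    intro k hk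
    obtain ⟨x, hx, hxk⟩ := key k hk
    have hp := pev_nonneg hx h5
    rw [pev_diff, pev_lhs, pev_rhs, hxk] at hp
    have hk1 : (1 : ℝ) ≤ k := by
      have : (n : ℝ) ≤ k := by exact_mod_cast hk
      linarith
    have hk0 : (0 : ℝ) < k := by linarith
    have p1 : (0 : ℝ) < (k : ℝ) + 2 + 2 * r := by linarith
    have p2 : (0 : ℝ) < (k : ℝ) + b + 1 - 2 * r := by linarith
    have p3 : (0 : ℝ) < (k : ℝ) + 1 := by linarith
    have p4 : (0 : ℝ) < (k : ℝ) + 2 := by linarith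
    rw [qn_eq hr hq hs]
    unfold qnQ
    push_cast
    have e : (1 : ℝ) + (c' : ℝ) / ((k : ℝ) * (k + 1))
        = ((k : ℝ) * (k + 1) + c') / ((k : ℝ) * (k + 1)) := by
      field_simp
    rw [e, div_le_div_iff₀ (by positivity) (by positivity)]
    nlinarith [mul_nonneg hp p3.le]
  have hc : (c : ℝ) < n := by exact_mod_cast h2
  have hc' : -(n : ℝ) ≤ (c' : ℝ) := by exact_mod_cast h3
  obtain ⟨g1, g2⟩ := Es_bounds hs0 hs hb hσ h1 hc hc' hqU hqL
  rw [en_eq hr hq hs hσ] at g1 g2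
  refine ⟨le_trans ?_ g1, le_trans g2 ?_, by exact_mod_cast h6⟩
  · have : ((Elo : ℚ) : ℝ) ≤ ((enQ r q b n * (1 + c' / n) : ℚ) : ℝ) := by exact_mod_cast h7
    push_cast at this
    exact this
  · have : ((enQ r q b n / (1 - c / n) : ℚ) : ℝ) ≤ (Ehi : ℝ) := by exact_mod_cast h8
    push_cast at this
    exact this

/-! a sharper enclosure: comparison with `(k + 1 + β) (k + γ) / ((k + β) (k + γ + 1))` -/

theorem Es_upper2 {s : ℂ} (hs0 : s ≠ 0) (hs : ‖s‖ < 1) {b : ℝ} (hb : 0 < b)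
    (hσ : 0 < b + 1 - 2 * s.re) {n : ℕ} {β γ : ℝ} (hβ : 0 < (n : ℝ) + β) (hγ : 0 < (n : ℝ) + γ)
    (hq : ∀ k : ℕ, n ≤ k → qn s b k ≤ ((k : ℝ) + 1 + β) * (k + γ) / ((k + β) * (k + γ + 1))) :
    Es s b ≤ en s b n * ((n + γ) / (n + β)) := by
  have hlim := en_tendsto hs0 hs hb hσ
  have hen := en_nonneg hs hb hσ n
  have key : ∀ m : ℕ, n ≤ m → en s b m * ((m + γ) / (m + β)) ≤ en s b n * ((n + γ) / (n + β)) := by
    intro m hm
    induction m, hm using Nat.le_induction with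
    | base => exact le_refl _
    | succ m hm ih =>
      have hmn : (n : ℝ) ≤ m := by exact_mod_cast hm
      have h1 : 0 < (m : ℝ) + β := by linarith
      have h2 : 0 < (m : ℝ) + γ := by linarith
      have h3 : 0 < (m : ℝ) + 1 + β := by linarith
      have h4 : 0 < (m : ℝ) + γ + 1 := by linarith
      have h5 := hq m hm
      have h6 := en_nonneg hs hb hσ m
      rw [en_succ hσ m]
      refine le_trans ?_ ih
      have e : (((m + 1 : ℕ) : ℝ) + γ) / (((m + 1 : ℕ) : ℝ) + β)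
          = ((m : ℝ) + γ + 1) / (m + 1 + β) := by
        push_cast
        congr 1
        ring
      rw [e]
      have h7 : qn s b m * (((m : ℝ) + γ + 1) / (m + 1 + β)) ≤ (m + γ) / (m + β) := by
        calc qn s b m * (((m : ℝ) + γ + 1) / (m + 1 + β))
            ≤ ((m : ℝ) + 1 + β) * (m + γ) / ((m + β) * (m + γ + 1))
                * (((m : ℝ) + γ + 1) / (m + 1 + β)) :=
              mul_le_mul_of_nonneg_right h5 (by positivity)
          _ = (m + γ) / (m + β) := by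
              field_simp
      calc en s b m * qn s b m * (((m : ℝ) + γ + 1) / (m + 1 + β))
          = en s b m * (qn s b m * (((m : ℝ) + γ + 1) / (m + 1 + β))) := by ring
        _ ≤ en s b m * ((m + γ) / (m + β)) := mul_le_mul_of_nonneg_left h7 h6
  have hinv : Tendsto (fun m : ℕ => ((m : ℝ))⁻¹) atTop (𝓝 0) := tendsto_inv_atTop_nhds_zero_nat
  have hr : Tendsto (fun m : ℕ => ((m : ℝ) + γ) / (m + β)) atTop (𝓝 1) := by
    have h1 : Tendsto (fun m : ℕ => (1 + γ * (m : ℝ)⁻¹) / (1 + β * (m : ℝ)⁻¹)) atTop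
        (𝓝 ((1 + γ * 0) / (1 + β * 0))) := by
      apply Tendsto.div ((hinv.const_mul γ).const_add 1) ((hinv.const_mul β).const_add 1)
      simp
    have h2 : ((1 : ℝ) + γ * 0) / (1 + β * 0) = 1 := by simp
    rw [h2] at h1
    refine h1.congr' ?_
    filter_upwards [eventually_gt_atTop 0, eventually_ge_atTop n] with m hm hmn
    have hm0 : (0 : ℝ) < m := by exact_mod_cast hm
    have hm1 : (n : ℝ) ≤ m := by exact_mod_cast hmn
    have h3 : 0 < (m : ℝ) + β := by linarith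
    have e1 : (1 : ℝ) + γ * (m : ℝ)⁻¹ = ((m : ℝ) + γ) / m := by field_simp
    have e2 : (1 : ℝ) + β * (m : ℝ)⁻¹ = ((m : ℝ) + β) / m := by field_simp
    rw [e1, e2]
    field_simp
  have h := le_of_tendsto (hlim.mul hr) (eventually_atTop.2 ⟨n, fun m hm => key m hm⟩)
  simpa using h

theorem Es_lower2 {s : ℂ} (hs0 : s ≠ 0) (hs : ‖s‖ < 1) {b : ℝ} (hb : 0 < b)
    (hσ : 0 < b + 1 - 2 * s.re) {n : ℕ} {β γ : ℝ} (hβ : 0 < (n : ℝ) + β) (hγ : 0 < (n : ℝ) + γ)
    (hq : ∀ k : ℕ, n ≤ k → ((k : ℝ) + 1 + β) * (k + γ) / ((k + β) * (k + γ + 1)) ≤ qn s b k) :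
    en s b n * ((n + γ) / (n + β)) ≤ Es s b := by
  have hlim := en_tendsto hs0 hs hb hσ
  have hen := en_nonneg hs hb hσ n
  have key : ∀ m : ℕ, n ≤ m → en s b n * ((n + γ) / (n + β)) ≤ en s b m * ((m + γ) / (m + β)) := by
    intro m hm
    induction m, hm using Nat.le_induction with
    | base => exact le_refl _
    | succ m hm ih =>
      have hmn : (n : ℝ) ≤ m := by exact_mod_cast hm
      have h1 : 0 < (m : ℝ) + β := by linarith
      have h2 : 0 < (m : ℝ) + γ := by linarith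
      have h3 : 0 < (m : ℝ) + 1 + β := by linarith
      have h4 : 0 < (m : ℝ) + γ + 1 := by linarith
      have h5 := hq m hm
      have h6 := en_nonneg hs hb hσ m
      rw [en_succ hσ m]
      refine le_trans ih ?_
      have e : (((m + 1 : ℕ) : ℝ) + γ) / (((m + 1 : ℕ) : ℝ) + β)
          = ((m : ℝ) + γ + 1) / (m + 1 + β) := by
        push_cast
        congr 1
        ring
      rw [e]
      have h7 : (m + γ) / (m + β) ≤ qn s b m * (((m : ℝ) + γ + 1) / (m + 1 + β)) := by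
        calc (m + γ) / (m + β) = ((m : ℝ) + 1 + β) * (m + γ) / ((m + β) * (m + γ + 1))
                * (((m : ℝ) + γ + 1) / (m + 1 + β)) := by
              field_simp
          _ ≤ qn s b m * (((m : ℝ) + γ + 1) / (m + 1 + β)) :=
              mul_le_mul_of_nonneg_right h5 (by positivity)
      calc en s b m * ((m + γ) / (m + β))
          ≤ en s b m * (qn s b m * (((m : ℝ) + γ + 1) / (m + 1 + β))) :=
            mul_le_mul_of_nonneg_left h7 h6
        _ = en s b m * qn s b m * (((m : ℝ) + γ + 1) / (m + 1 + β)) := by ring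
  have hinv : Tendsto (fun m : ℕ => ((m : ℝ))⁻¹) atTop (𝓝 0) := tendsto_inv_atTop_nhds_zero_nat
  have hr : Tendsto (fun m : ℕ => ((m : ℝ) + γ) / (m + β)) atTop (𝓝 1) := by
    have h1 : Tendsto (fun m : ℕ => (1 + γ * (m : ℝ)⁻¹) / (1 + β * (m : ℝ)⁻¹)) atTop
        (𝓝 ((1 + γ * 0) / (1 + β * 0))) := by
      apply Tendsto.div ((hinv.const_mul γ).const_add 1) ((hinv.const_mul β).const_add 1)
      simp
    have h2 : ((1 : ℝ) + γ * 0) / (1 + β * 0) = 1 := by simp
    rw [h2] at h1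
    refine h1.congr' ?_
    filter_upwards [eventually_gt_atTop 0, eventually_ge_atTop n] with m hm hmn
    have hm0 : (0 : ℝ) < m := by exact_mod_cast hm
    have hm1 : (n : ℝ) ≤ m := by exact_mod_cast hmn
    have h3 : 0 < (m : ℝ) + β := by linarith
    have e1 : (1 : ℝ) + γ * (m : ℝ)⁻¹ = ((m : ℝ) + γ) / m := by field_simp
    have e2 : (1 : ℝ) + β * (m : ℝ)⁻¹ = ((m : ℝ) + β) / m := by field_simp
    rw [e1, e2]
    field_simp
  have h := ge_of_tendsto (hlim.mul hr) (eventually_atTop.2 ⟨n, fun m hm => key m hm⟩)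
  simpa using h

/-- numerator of the quotient, in `x = k - n`, times `(k + β) (k + γ + 1)` -/
def lhsP2 (r q b n be ga : ℚ) : List ℚ :=
  pquad (2 * n - 2 * r) (n ^ 2 - 2 * r * n + q)
    (pquad (2 * n + 4 + 2 * r) (n ^ 2 + (4 + 2 * r) * n + 4 + 4 * r + q)
      (plin (n + b + 3) (plin (n + be) [n + ga + 1, 1])))

/-- denominator of the quotient, in `x = k - n`, times `(k + 1 + β) (k + γ)` -/
def rhsP2 (r b n be ga : ℚ) : List ℚ :=
  plin (n + b + 1 - 2 * r) (plin (n + 2 + 2 * r) (plin (n + 2) (plin (n + 1) (plin (n + 1)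
    (plin (n + 1 + be) [n + ga, 1])))))

theorem pev_lhs2 (r q b n be ga : ℚ) (x : ℝ) : pev (lhsP2 r q b n be ga) x
    = ((x + n) ^ 2 - 2 * r * (x + n) + q) * ((x + n + 2) * (x + n + 2 + 2 * r) + q)
      * (x + n + b + 3) * ((x + n + be) * (x + n + ga + 1)) := by
  simp only [lhsP2, pev_quad, pev_lin, pev]
  push_cast
  ring

theorem pev_rhs2 (r b n be ga : ℚ) (x : ℝ) : pev (rhsP2 r b n be ga) x
    = (x + n + 1) ^ 2 * ((x + n + 2) * (x + n + 2 + 2 * r)) * (x + n + b + 1 - 2 * r)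
      * ((x + n + 1 + be) * (x + n + ga)) := by
  simp only [rhsP2, pev_lin, pev]
  push_cast
  ring

/-- the second check: `bu, gu` are the parameters `β, γ` of the upper bound, `bl, gl` those of the
lower bound; best choice `γ = β + cinf` (see the generator) -/
def esQ2 (r q b : ℚ) (n : ℕ) (bu gu bl gl Elo Ehi : ℚ) : Bool :=
  decide (0 < (n : ℚ) + bu) && decide (0 < (n : ℚ) + gu)
    && decide (0 < (n : ℚ) + bl) && decide (0 < (n : ℚ) + gl)
    && (padd (rhsP2 r b n bu gu) (psm (-1) (lhsP2 r q b n bu gu))).all (fun a => decide (0 ≤ a))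
    && (padd (lhsP2 r q b n bl gl) (psm (-1) (rhsP2 r b n bl gl))).all (fun a => decide (0 ≤ a))
    && decide (0 ≤ Elo) && decide (Elo ≤ enQ r q b n * ((n + gl) / (n + bl)))
    && decide (enQ r q b n * ((n + gu) / (n + bu)) ≤ Ehi)

/-- the sharper enclosure of the main constant -/
theorem esQ2_sound {s : ℂ} {r q b : ℚ} {n : ℕ} {bu gu bl gl Elo Ehi : ℚ} (hr : s.re = r)
    (hq : ‖s‖ ^ 2 = q) (hs0 : s ≠ 0) (hs : ‖s‖ < 1) (hb : (0 : ℝ) < b)
    (hσ : (0 : ℝ) < b + 1 - 2 * s.re) (h : esQ2 r q b n bu gu bl gl Elo Ehi = true) :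
    (Elo : ℝ) ≤ Es s b ∧ Es s b ≤ Ehi ∧ (0 : ℝ) ≤ Elo := by
  simp only [esQ2, Bool.and_eq_true, decide_eq_true_eq] at h
  obtain ⟨⟨⟨⟨⟨⟨⟨⟨h1, h1'⟩, h2⟩, h2'⟩, h4⟩, h5⟩, h6⟩, h7⟩, h8⟩ := h
  have g1 : (0 : ℝ) < (n : ℝ) + bu := by exact_mod_cast h1
  have g1' : (0 : ℝ) < (n : ℝ) + gu := by exact_mod_cast h1'
  have g2 : (0 : ℝ) < (n : ℝ) + bl := by exact_mod_cast h2
  have g2' : (0 : ℝ) < (n : ℝ) + gl := by exact_mod_cast h2'
  have hre := re_gt hs
  have hre' : -1 < (r : ℝ) := by rw [← hr]; exact hre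
  have hσ' : (0 : ℝ) < b + 1 - 2 * r := by rw [← hr]; exact hσ
  have key : ∀ k : ℕ, n ≤ k → ∃ x : ℝ, 0 ≤ x ∧ (x + ((n : ℚ) : ℝ)) = k := by
    intro k hk
    refine ⟨(k : ℝ) - n, ?_, ?_⟩
    · have : (n : ℝ) ≤ k := by exact_mod_cast hk
      linarith
    · push_cast
      ring
  have hqU : ∀ k : ℕ, n ≤ k → qn s b k
      ≤ ((k : ℝ) + 1 + bu) * (k + gu) / ((k + bu) * (k + gu + 1)) := by
    intro k hk
    obtain ⟨x, hx, hxk⟩ := key k hk
    have hp := pev_nonneg hx h4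
    rw [pev_diff, pev_lhs2, pev_rhs2, hxk] at hp
    have hk0 : (0 : ℝ) ≤ k := Nat.cast_nonneg k
    have hkn : (n : ℝ) ≤ k := by exact_mod_cast hk
    have p1 : (0 : ℝ) < (k : ℝ) + 2 + 2 * r := by linarith
    have p2 : (0 : ℝ) < (k : ℝ) + b + 1 - 2 * r := by linarith
    have p3 : (0 : ℝ) < (k : ℝ) + 1 := by linarith
    have p4 : (0 : ℝ) < (k : ℝ) + 2 := by linarith
    have p5 : (0 : ℝ) < (k : ℝ) + bu := by linarith
    have p6 : (0 : ℝ) < (k : ℝ) + gu + 1 := by linarith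
    rw [qn_eq hr hq hs]
    unfold qnQ
    push_cast
    rw [div_le_div_iff₀ (by positivity) (by positivity)]
    linarith
  have hqL : ∀ k : ℕ, n ≤ k → ((k : ℝ) + 1 + bl) * (k + gl) / ((k + bl) * (k + gl + 1))
      ≤ qn s b k := by
    intro k hk
    obtain ⟨x, hx, hxk⟩ := key k hk
    have hp := pev_nonneg hx h5
    rw [pev_diff, pev_lhs2, pev_rhs2, hxk] at hp
    have hk0 : (0 : ℝ) ≤ k := Nat.cast_nonneg k
    have hkn : (n : ℝ) ≤ k := by exact_mod_cast hk
    have p1 : (0 : ℝ) < (k : ℝ) + 2 + 2 * r := by linarith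
    have p2 : (0 : ℝ) < (k : ℝ) + b + 1 - 2 * r := by linarith
    have p3 : (0 : ℝ) < (k : ℝ) + 1 := by linarith
    have p4 : (0 : ℝ) < (k : ℝ) + 2 := by linarith
    have p5 : (0 : ℝ) < (k : ℝ) + bl := by linarith
    have p6 : (0 : ℝ) < (k : ℝ) + gl + 1 := by linarith
    rw [qn_eq hr hq hs]
    unfold qnQ
    push_cast
    rw [div_le_div_iff₀ (by positivity) (by positivity)]
    linarith
  have f1 := Es_lower2 hs0 hs hb hσ g2 g2' hqL
  have f2 := Es_upper2 hs0 hs hb hσ g1 g1' hqU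
  rw [en_eq hr hq hs hσ] at f1 f2
  refine ⟨le_trans ?_ f1, le_trans f2 ?_, by exact_mod_cast h6⟩
  · have : ((Elo : ℚ) : ℝ) ≤ ((enQ r q b n * ((n + gl) / (n + bl)) : ℚ) : ℝ) := by
      exact_mod_cast h7
    push_cast at this
    exact this
  · have : ((enQ r q b n * ((n + gu) / (n + bu)) : ℚ) : ℝ) ≤ (Ehi : ℝ) := by exact_mod_cast h8
    push_cast at this
    exact this

end Pool.Agent.Helper53.HR2
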