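import Pool.Agent.Helper53.HR2.MMX
import Pool.Agent.Helper53.HR2.Form4
import Pool.Agent.Helper65.HR2.Fin
import Pool.Agent.Helper24.HR2.CoreT

/-!
MP_16b0ee, project HR2: the bound of the means at one point from the second form of the area
inequality (record `AP2`), with three moments (the fourth one is eliminated) or with four moments.
-/

set_option autoImplicit false

open scoped ComplexConjugate

namespace Pool.Agent.Helper65.HR2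

open Pool.Agent.Helper24.HR2
open Pool.Agent.Helper12.HR2
open Pool.Agent.Helper53.HR2 (xsc4 xsc4_eq qfM4 relsL hc_of_sound4)

/-- from the bound of the weighted area integral to the means -/
theorem AP.ptOK_of_LS (P : AP) (hb : 0 < P.bR)
    (h : ∃ C0 : ℝ, ∀ (ρ : ℝ) (β H : ℂ → ℂ) (Φ : ℂ → ℂ → ℂ), Dat ρ β H Φ →
      LS P.sC H P.bR (fun _ => 1) ≤ C0) : PtOK P.par := by
  obtain ⟨C0, hC0⟩ := h
  have key := mean_of_LS hb hC0
  rw [P.sC_eq, P.bR_eq] at key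
  exact ⟨(P.bn : ℝ) / P.bd * C0, key⟩

namespace AP2

theorem fac2_pos (X : AP2) (h1 : X.P.c1 = true) (r t : ℕ) : 0 < X.fac2 r t := by
  simp only [AP.c1, Bool.and_eq_true, decide_eq_true_eq] at h1
  obtain ⟨⟨⟨⟨⟨⟨⟨⟨⟨⟨⟨⟨⟨⟨hsd, -⟩, hN⟩, -⟩, -⟩, hb0⟩, -⟩, -⟩, -⟩, -⟩, -⟩, -⟩, -⟩, -⟩, -⟩ := h1
  rw [fac2]
  have h4 := AP.pochQ_pos hb0 (2 * r + 2 * t)
  positivity

theorem fac2_eq (X : AP2) (r t : ℕ) : ((X.fac2 r t : ℚ) : ℝ)
    = (X.P.N : ℝ) * (X.P.bR * (X.P.bR + 1) * (X.P.bR + 2) / poch X.P.bR (2 * r + 2 * t)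
      * (xsc4 X.P.par r * xsc4 X.P.par t)) := by
  have e : (X.P.par.sr : ℝ) = X.P.sd := rfl
  rw [fac2, AP.bR, ← AP.pochQ_eq, xsc4, xsc4, e]
  push_cast
  rw [pow_add, ← one_div_mul_one_div]
  ring

theorem QC2_eq (X : AP2) (h1 : X.P.c1 = true) (r t : ℕ) :
    (((X.P.N : ℝ) * (X.P.bR * (X.P.bR + 1) * (X.P.bR + 2) / poch X.P.bR (2 * r + 2 * t)
      * (xsc4 X.P.par r * xsc4 X.P.par t)) : ℝ) : ℂ) * X.QC2 r t = gv (X.P.MZ r t) := by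
  have hfac := X.fac2_pos h1 r t
  rw [← fac2_eq, QC2, Qf2, GQ.toC_sc, ← mul_assoc, ← Complex.ofReal_mul, ← Rat.cast_mul,
    mul_one_div_cancel hfac.ne', Rat.cast_one, Complex.ofReal_one, one_mul]
  apply Complex.ext
  · simp [GQ.toC, AP.Mf, AP.MZ, gv]
  · simp [GQ.toC, AP.Mf, AP.MZ, gv]

/-- the fourth moment splits off -/
def c9 (X : AP2) : Bool :=
  decide (X.P.MZ 0 3 = (0, 0)) && decide (X.P.MZ 1 3 = (0, 0)) && decide (X.P.MZ 2 3 = (0, 0)) &&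
  decide (X.P.MZ 3 0 = (0, 0)) && decide (X.P.MZ 3 1 = (0, 0)) && decide (X.P.MZ 3 2 = (0, 0)) &&
  decide (0 < (X.P.MZ 3 3).1)

theorem hF4_split (Q : ℕ → ℕ → ℂ) (h03 : Q 0 3 = 0) (h13 : Q 1 3 = 0) (h23 : Q 2 3 = 0)
    (h30 : Q 3 0 = 0) (h31 : Q 3 1 = 0) (h32 : Q 3 2 = 0) (g : ℕ → ℂ) :
    hF 3 Q g + (Q 3 3).re * ‖g 3‖ ^ 2 = hF 4 Q g := by
  have e : (Q 3 3 * (g 3 * conj (g 3))).re = (Q 3 3).re * ‖g 3‖ ^ 2 := by
    rw [Complex.mul_conj, Complex.normSq_eq_norm_sq, Complex.re_mul_ofReal]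
  rw [← e]
  simp only [hF, Finset.sum_range_succ, Finset.sum_range_zero, h03, h13, h23, h30, h31, h32,
    zero_mul, Complex.zero_re]
  ring

theorem QC2_zero (X : AP2) (h1 : X.P.c1 = true) {r t : ℕ} (h : X.P.MZ r t = (0, 0)) :
    X.QC2 r t = 0 := by
  have h2 := X.QC2_eq h1 r t
  rw [h, ← fac2_eq] at h2
  have h3 : ((X.fac2 r t : ℝ) : ℂ) ≠ 0 := by
    have := X.fac2_pos h1 r t
    exact_mod_cast this.ne'
  have h4 : gv (0, 0) = 0 := by simp [gv]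
  rw [h4] at h2
  exact (mul_eq_zero.1 h2).resolve_left h3

theorem QC2_pos (X : AP2) (h1 : X.P.c1 = true) {r t : ℕ} (h : 0 < (X.P.MZ r t).1) :
    0 < (X.QC2 r t).re := by
  have h2 := X.QC2_eq h1 r t
  rw [← fac2_eq] at h2
  have h3 : (0 : ℝ) < (X.fac2 r t : ℝ) := by
    have := X.fac2_pos h1 r t
    exact_mod_cast this
  have h4 := congrArg Complex.re h2
  rw [Complex.re_ofReal_mul, gv_re] at h4
  have h5 : (0 : ℝ) < ((X.P.MZ r t).1 : ℝ) := by exact_mod_cast h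
  rw [← h4] at h5
  exact (pos_iff_pos_of_mul_pos h5).1 h3

/-- the per-frequency inequality with three moments -/
theorem pf3 (X : AP2) (h1 : X.P.c1 = true) (hs : ‖X.P.sC‖ < 1) (hb : 0 < X.P.bR)
    (h9 : X.c9 = true) (h : PF X.P.sC X.P.bR 4 (hF 4 X.QC2)) :
    PF X.P.sC X.P.bR 3 (hF 3 X.QC2) := by
  simp only [c9, Bool.and_eq_true, decide_eq_true_eq] at h9
  obtain ⟨⟨⟨⟨⟨⟨h03, h13⟩, h23⟩, h30⟩, h31⟩, h32⟩, h33⟩ := h9
  exact PF_extK hs hb h (X.QC2_pos h1 h33) (fun g =>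
    (hF4_split X.QC2 (X.QC2_zero h1 h03) (X.QC2_zero h1 h13) (X.QC2_zero h1 h23)
      (X.QC2_zero h1 h30) (X.QC2_zero h1 h31) (X.QC2_zero h1 h32) g).le)

theorem N_pos (X : AP2) (h1 : X.P.c1 = true) : (0 : ℝ) < (X.P.N : ℝ) := by
  simp only [AP.c1, Bool.and_eq_true, decide_eq_true_eq] at h1
  obtain ⟨⟨⟨⟨⟨⟨⟨⟨⟨⟨⟨⟨⟨⟨-, -⟩, hN⟩, -⟩, -⟩, -⟩, -⟩, -⟩, -⟩, -⟩, -⟩, -⟩, -⟩, -⟩, -⟩ := h1
  exact_mod_cast hN

theorem sr_ne (X : AP2) (h1 : X.P.c1 = true) : X.P.par.sr ≠ 0 := by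
  simp only [AP.c1, Bool.and_eq_true, decide_eq_true_eq] at h1
  obtain ⟨⟨⟨⟨⟨⟨⟨⟨⟨⟨⟨⟨⟨⟨hsd, -⟩, -⟩, -⟩, -⟩, -⟩, -⟩, -⟩, -⟩, -⟩, -⟩, -⟩, -⟩, -⟩, -⟩ := h1
  exact hsd.ne'

/-- **the bound of the means at the point, three moments** (second form of the area inequality with
four moments, the last one eliminated) -/
theorem ok3 (X : AP2) (h1 : X.P.c1 = true) (h2 : X.P.c2 = true) (h3 : X.P.c3 = true)
    (h6 : X.c6 = true) (h7 : X.c7 = true) {m : ℕ} {bu gu bl gl : ℚ}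
    (h5 : X.c5 m bu gu bl gl = true) {S J : ℕ} {f1 f2 g1 g2 f1' f2' g1' g2' : ℚ}
    (h8 : X.c8 S J f1 f2 g1 g2 f1' f2' g1' g2' = true) (hK : X.K = 4) (h9 : X.c9 = true)
    {t : Tab} {bas : List Mo} {prs : List (Mo × Mo)} {Bt : List (List (List ℕ))}
    {n W K : ℕ} (ht : TabOK t bas prs Bt n W K) (C : Cert) (h : check t n W K C = true)
    (hP : C.P = X.P.par) (hqf : C.qf = qfM C.P X.P.MZ) (heta : 0 < C.eta) : PtOK X.P.par := by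
  obtain ⟨k1, k2, k3, k4, k5, k6, k7⟩ := X.pf' h1 h2 h3 h6 h7 h5 h8
  rw [hK] at k7
  have hpf := X.pf3 h1 (by linarith) k3 h9 k7
  have hs : X.P.sC = ((C.P.p : ℂ) + C.P.q * Complex.I) / C.P.sr := by
    rw [hP]
    exact X.P.sC_eq
  have hb : X.P.bR = (C.P.bn : ℝ) / C.P.bd := by
    rw [hP]
    exact X.P.bR_eq
  have hc := hc_of_cert ht C h X.P.MZ hqf X.QC2 (X.N_pos h1) hs hb (by
    intro r hr t ht
    rw [hP, ← xsc4_eq _ hr, ← xsc4_eq _ ht]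
    exact X.QC2_eq h1 r t)
  refine X.P.ptOK_of_LS k3 (core_g k1 k2 k3 k4 k5 k6 X.QC2 hpf (relsC C X.P.N Bt)
    (η := (C.eta : ℝ) / X.P.N) ?_ hc)
  have h10 : (0 : ℝ) < (C.eta : ℝ) := by exact_mod_cast heta
  exact div_pos h10 (X.N_pos h1)

/-- **the bound of the means at the point, four moments**, from the conclusion of any certificate
checker -/
theorem ok4_of_sound (X : AP2) (h1 : X.P.c1 = true) (h2 : X.P.c2 = true) (h3 : X.P.c3 = true)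
    (h6 : X.c6 = true) (h7 : X.c7 = true) {m : ℕ} {bu gu bl gl : ℚ}
    (h5 : X.c5 m bu gu bl gl = true) {S J : ℕ} {f1 f2 g1 g2 f1' f2' g1' g2' : ℚ}
    (h8 : X.c8 S J f1 f2 g1 g2 f1' f2' g1' g2' = true) (hK : X.K = 4)
    {eta mL : ℝ} {qf L : Pol} (heta : 0 < eta)
    (h : ∀ c : ℕ → ℂ, eta + (pv c (fun k => conj (c k)) qf).re
      + mL * (rel (((X.P.par.p : ℂ) + X.P.par.q * Complex.I) / X.P.par.sr)
        ((X.P.par.bn : ℂ) / X.P.par.bd) c L).re ≤ 0)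
    (hqf : ∀ c : ℕ → ℂ, (pv c (fun k => conj (c k)) qf).re
      = (pv c (fun k => conj (c k)) (qfM4 X.P.par X.P.MZ)).re) : PtOK X.P.par := by
  obtain ⟨k1, k2, k3, k4, k5, k6, k7⟩ := X.pf' h1 h2 h3 h6 h7 h5 h8
  rw [hK] at k7
  have hc := hc_of_sound4 X.P.par (X.sr_ne h1) X.P.MZ X.QC2 (X.N_pos h1) X.P.sC_eq X.P.bR_eq h hqf
    (fun r _ t _ => X.QC2_eq h1 r t)
  exact X.P.ptOK_of_LS k3 (core_t k1 k2 k3 k4 k5 k6 X.QC2 k7 (relsL mL X.P.N L)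
    (div_pos heta (X.N_pos h1)) hc)

/-- **the bound of the means at the point, four moments**, from the certificate checker -/
theorem ok4 (X : AP2) (h1 : X.P.c1 = true) (h2 : X.P.c2 = true) (h3 : X.P.c3 = true)
    (h6 : X.c6 = true) (h7 : X.c7 = true) {m : ℕ} {bu gu bl gl : ℚ}
    (h5 : X.c5 m bu gu bl gl = true) {S J : ℕ} {f1 f2 g1 g2 f1' f2' g1' g2' : ℚ}
    (h8 : X.c8 S J f1 f2 g1 g2 f1' f2' g1' g2' = true) (hK : X.K = 4)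
    {t : Tab} {bas : List Mo} {prs : List (Mo × Mo)} {Bt : List (List (List ℕ))}
    {n W K : ℕ} (ht : TabOK t bas prs Bt n W K) (C : Cert) (h : check t n W K C = true)
    (hP : C.P = X.P.par) (hqf : C.qf = qfM4 C.P X.P.MZ) (heta : 0 < C.eta) : PtOK X.P.par := by
  have hs := sound ht C h
  rw [hP] at hs
  refine X.ok4_of_sound h1 h2 h3 h6 h7 h5 h8 hK (eta := (C.eta : ℝ)) (mL := (C.mL : ℝ))
    (by exact_mod_cast heta) hs (fun c => ?_)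
  rw [hqf, hP]

end AP2

end Pool.Agent.Helper65.HR2
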