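import Pool.Agent.Helper53.HR2.Fin2

/-!
MP_16b0ee, project HR2: the bound of the means at one point from the second form of the area
inequality with any number `X.K` of moments; the moments beyond the third (or fourth) are eliminated.
-/

set_option autoImplicit false

open scoped ComplexConjugate

namespace Pool.Agent.Helper65.HR2

open Pool.Agent.Helper24.HR2
open Pool.Agent.Helper12.HR2
open Pool.Agent.Helper53.HR2 (xsc4 xsc4_eq qfM4 relsL hc_of_sound4)

namespace AP2

/-- the row and the column of order `i` vanish before the diagonal, which is positive -/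
def cz (X : AP2) (i : ℕ) : Bool :=
  decide (0 < (X.P.MZ i i).1) &&
    (List.range i).all (fun j => decide (X.P.MZ i j = (0, 0)) && decide (X.P.MZ j i = (0, 0)))

/-- the moments of order `k, ..., K - 1` split off -/
def c10 (X : AP2) (k : ℕ) : Bool :=
  decide (k ≤ X.K) && (List.range X.K).all (fun i => decide (i < k) || X.cz i)

theorem hF_succ_split (K : ℕ) (Q : ℕ → ℕ → ℂ) (h1 : ∀ j < K, Q K j = 0) (h2 : ∀ j < K, Q j K = 0)
    (g : ℕ → ℂ) : hF K Q g + (Q K K).re * ‖g K‖ ^ 2 = hF (K + 1) Q g := by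
  have e : (Q K K * (g K * conj (g K))).re = (Q K K).re * ‖g K‖ ^ 2 := by
    rw [Complex.mul_conj, Complex.normSq_eq_norm_sq, Complex.re_mul_ofReal]
  have e1 : ∑ t ∈ Finset.range K, (Q K t * (g t * conj (g K))).re = 0 := by
    refine Finset.sum_eq_zero (fun j hj => ?_)
    rw [h1 j (Finset.mem_range.1 hj), zero_mul, Complex.zero_re]
  have e2 : ∑ r ∈ Finset.range K, (Q r K * (g K * conj (g r))).re = 0 := by
    refine Finset.sum_eq_zero (fun j hj => ?_)
    rw [h2 j (Finset.mem_range.1 hj), zero_mul, Complex.zero_re]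
  rw [← e, hF, hF, Finset.sum_range_succ]
  simp only [Finset.sum_range_succ]
  rw [Finset.sum_add_distrib, e1, e2]
  ring

theorem pf_drop_aux (X : AP2) (h1 : X.P.c1 = true) (hs : ‖X.P.sC‖ < 1) (hb : 0 < X.P.bR) (k : ℕ) :
    ∀ K : ℕ, k ≤ K → (∀ i < K, i < k ∨ X.cz i = true) → PF X.P.sC X.P.bR K (hF K X.QC2) →
      PF X.P.sC X.P.bR k (hF k X.QC2) := by
  intro K
  induction K with
  | zero =>
    intro hk _ h
    have : k = 0 := by omega
    rw [this]
    exact h
  | succ K ih =>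
    intro hk hz h
    by_cases hk' : k = K + 1
    · rw [hk']
      exact h
    · have hkK : k ≤ K := by omega
      refine ih hkK (fun i hi => hz i (by omega)) ?_
      have h2 := (hz K (by omega)).resolve_left (by omega)
      simp only [cz, Bool.and_eq_true, decide_eq_true_eq, List.all_eq_true, List.mem_range] at h2
      obtain ⟨h3, h4⟩ := h2
      exact PF_extK hs hb h (X.QC2_pos h1 h3) (fun g =>
        (hF_succ_split K X.QC2 (fun j hj => X.QC2_zero h1 (h4 j hj).1)
          (fun j hj => X.QC2_zero h1 (h4 j hj).2) g).le)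

/-- the per-frequency inequality with the first `k` moments -/
theorem pf_drop (X : AP2) (h1 : X.P.c1 = true) (hs : ‖X.P.sC‖ < 1) (hb : 0 < X.P.bR) {k : ℕ}
    (h10 : X.c10 k = true) (h : PF X.P.sC X.P.bR X.K (hF X.K X.QC2)) :
    PF X.P.sC X.P.bR k (hF k X.QC2) := by
  simp only [c10, Bool.and_eq_true, decide_eq_true_eq, List.all_eq_true, List.mem_range,
    Bool.or_eq_true] at h10
  exact X.pf_drop_aux h1 hs hb k X.K h10.1 h10.2 h

/-- **the bound of the means at the point, three moments**, the others are eliminated -/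
theorem ok3g (X : AP2) (h1 : X.P.c1 = true) (h2 : X.P.c2 = true) (h3 : X.P.c3 = true)
    (h6 : X.c6 = true) (h7 : X.c7 = true) {m : ℕ} {bu gu bl gl : ℚ}
    (h5 : X.c5 m bu gu bl gl = true) {S J : ℕ} {f1 f2 g1 g2 f1' f2' g1' g2' : ℚ}
    (h8 : X.c8 S J f1 f2 g1 g2 f1' f2' g1' g2' = true) (h10 : X.c10 3 = true)
    {t : Tab} {bas : List Mo} {prs : List (Mo × Mo)} {Bt : List (List (List ℕ))}
    {n W K : ℕ} (ht : TabOK t bas prs Bt n W K) (C : Cert) (h : check t n W K C = true)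
    (hP : C.P = X.P.par) (hqf : C.qf = qfM C.P X.P.MZ) (heta : 0 < C.eta) : PtOK X.P.par := by
  obtain ⟨k1, k2, k3, k4, k5, k6, k7⟩ := X.pf' h1 h2 h3 h6 h7 h5 h8
  have hpf := X.pf_drop h1 (by linarith) k3 h10 k7
  have hs : X.P.sC = ((C.P.p : ℂ) + C.P.q * Complex.I) / C.P.sr := by
    rw [hP]
    exact X.P.sC_eq
  have hb : X.P.bR = (C.P.bn : ℝ) / C.P.bd := by
    rw [hP]
    exact X.P.bR_eq
  have hc := hc_of_cert ht C h X.P.MZ hqf X.QC2 (X.N_pos h1) hs hb (by
    intro r hr t ht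
    rw [hP, ← xsc4_eq _ hr, ← xsc4_eq _ ht]
    exact X.QC2_eq h1 r t)
  refine X.P.ptOK_of_LS k3 (core_g k1 k2 k3 k4 k5 k6 X.QC2 hpf (relsC C X.P.N Bt)
    (η := (C.eta : ℝ) / X.P.N) ?_ hc)
  have h11 : (0 : ℝ) < (C.eta : ℝ) := by exact_mod_cast heta
  exact div_pos h11 (X.N_pos h1)

/-- **the bound of the means at the point, four moments**, the others are eliminated; from the
conclusion of any certificate checker -/
theorem ok4g_of_sound (X : AP2) (h1 : X.P.c1 = true) (h2 : X.P.c2 = true) (h3 : X.P.c3 = true)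
    (h6 : X.c6 = true) (h7 : X.c7 = true) {m : ℕ} {bu gu bl gl : ℚ}
    (h5 : X.c5 m bu gu bl gl = true) {S J : ℕ} {f1 f2 g1 g2 f1' f2' g1' g2' : ℚ}
    (h8 : X.c8 S J f1 f2 g1 g2 f1' f2' g1' g2' = true) (h10 : X.c10 4 = true)
    {eta mL : ℝ} {qf L : Pol} (heta : 0 < eta)
    (h : ∀ c : ℕ → ℂ, eta + (pv c (fun k => conj (c k)) qf).re
      + mL * (rel (((X.P.par.p : ℂ) + X.P.par.q * Complex.I) / X.P.par.sr)
        ((X.P.par.bn : ℂ) / X.P.par.bd) c L).re ≤ 0)
    (hqf : ∀ c : ℕ → ℂ, (pv c (fun k => conj (c k)) qf).re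
      = (pv c (fun k => conj (c k)) (qfM4 X.P.par X.P.MZ)).re) : PtOK X.P.par := by
  obtain ⟨k1, k2, k3, k4, k5, k6, k7⟩ := X.pf' h1 h2 h3 h6 h7 h5 h8
  have hpf := X.pf_drop h1 (by linarith) k3 h10 k7
  have hc := hc_of_sound4 X.P.par (X.sr_ne h1) X.P.MZ X.QC2 (X.N_pos h1) X.P.sC_eq X.P.bR_eq h hqf
    (fun r _ t _ => X.QC2_eq h1 r t)
  exact X.P.ptOK_of_LS k3 (core_t k1 k2 k3 k4 k5 k6 X.QC2 hpf (relsL mL X.P.N L)
    (div_pos heta (X.N_pos h1)) hc)

end AP2

end Pool.Agent.Helper65.HR2
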