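import Pool.Agent.Helper53.HR2.Fin3

/-!
MP_16b0ee, project HR2: the bound of the means at one point when the matrix of the area form is a
multiple of a small integer matrix on the moments that are kept.
-/

set_option autoImplicit false

open scoped ComplexConjugate

namespace Pool.Agent.Helper65.HR2

open Pool.Agent.Helper24.HR2
open Pool.Agent.Helper12.HR2
open Pool.Agent.Helper53.HR2 (xsc4 xsc4_eq qfM4 relsL hc_of_sound4)

namespace AP2

/-- the entries of a matrix of Gaussian integers -/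
def mf (M1 : List (List (ℤ × ℤ))) (r t : ℕ) : ℤ × ℤ := (M1.getD r []).getD t (0, 0)

/-- on the first `k` moments the matrix is `kq` times the matrix `M1` -/
def ckM (X : AP2) (k kq : ℕ) (M1 : List (List (ℤ × ℤ))) : Bool :=
  decide (0 < kq) && (List.range k).all (fun r => (List.range k).all (fun t =>
    decide (X.P.MZ r t = ((kq : ℤ) * (mf M1 r t).1, (kq : ℤ) * (mf M1 r t).2))))

theorem ckM_pos {X : AP2} {k kq : ℕ} {M1 : List (List (ℤ × ℤ))} (h : X.ckM k kq M1 = true) :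
    (0 : ℝ) < kq := by
  simp only [ckM, Bool.and_eq_true, decide_eq_true_eq] at h
  exact_mod_cast h.1

theorem ckM_gv {X : AP2} {k kq : ℕ} {M1 : List (List (ℤ × ℤ))} (h : X.ckM k kq M1 = true)
    {r t : ℕ} (hr : r < k) (ht : t < k) : gv (X.P.MZ r t) = (kq : ℂ) * gv (mf M1 r t) := by
  simp only [ckM, Bool.and_eq_true, decide_eq_true_eq, List.all_eq_true, List.mem_range] at h
  rw [h.2 r hr t ht]
  simp only [gv]
  push_cast
  ring

theorem div_aux {N kq x : ℝ} {Q m g : ℂ} (hk : 0 < kq) (h : ((N * x : ℝ) : ℂ) * Q = g)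
    (hg : g = (kq : ℂ) * m) : ((N / kq * x : ℝ) : ℂ) * Q = m := by
  have hk' : (kq : ℂ) ≠ 0 := by exact_mod_cast hk.ne'
  rw [hg] at h
  have h2 : (kq : ℂ) * (((N / kq * x : ℝ) : ℂ) * Q) = (kq : ℂ) * m := by
    rw [← h]
    push_cast
    field_simp
  exact mul_left_cancel₀ hk' h2

/-- **the bound of the means at the point, four moments**, matrix `kq * M1` -/
theorem ok4k_of_sound (X : AP2) (h1 : X.P.c1 = true) (h2 : X.P.c2 = true) (h3 : X.P.c3 = true)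
    (h6 : X.c6 = true) (h7 : X.c7 = true) {m : ℕ} {bu gu bl gl : ℚ}
    (h5 : X.c5 m bu gu bl gl = true) {S J : ℕ} {f1 f2 g1 g2 f1' f2' g1' g2' : ℚ}
    (h8 : X.c8 S J f1 f2 g1 g2 f1' f2' g1' g2' = true) (h10 : X.c10 4 = true)
    {kq : ℕ} {M1 : List (List (ℤ × ℤ))} (hM : X.ckM 4 kq M1 = true)
    {eta mL : ℝ} {qf L : Pol} (heta : 0 < eta)
    (h : ∀ c : ℕ → ℂ, eta + (pv c (fun k => conj (c k)) qf).re
      + mL * (rel (((X.P.par.p : ℂ) + X.P.par.q * Complex.I) / X.P.par.sr)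
        ((X.P.par.bn : ℂ) / X.P.par.bd) c L).re ≤ 0)
    (hqf : ∀ c : ℕ → ℂ, (pv c (fun k => conj (c k)) qf).re
      = (pv c (fun k => conj (c k)) (qfM4 X.P.par (mf M1))).re) : PtOK X.P.par := by
  obtain ⟨k1, k2, k3, k4, k5, k6, k7⟩ := X.pf' h1 h2 h3 h6 h7 h5 h8
  have hpf := X.pf_drop h1 (by linarith) k3 h10 k7
  have hk := ckM_pos hM
  have hN : (0 : ℝ) < X.P.N / kq := div_pos (X.N_pos h1) hk
  have hc := hc_of_sound4 X.P.par (X.sr_ne h1) (mf M1) X.QC2 hN X.P.sC_eq X.P.bR_eq h hqf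
    (fun r hr t ht => div_aux hk (X.QC2_eq h1 r t) (ckM_gv hM hr ht))
  exact X.P.ptOK_of_LS k3 (core_t k1 k2 k3 k4 k5 k6 X.QC2 hpf (relsL mL (X.P.N / kq) L)
    (div_pos heta hN) hc)

/-- **the bound of the means at the point, three moments**, matrix `kq * M1` -/
theorem ok3k (X : AP2) (h1 : X.P.c1 = true) (h2 : X.P.c2 = true) (h3 : X.P.c3 = true)
    (h6 : X.c6 = true) (h7 : X.c7 = true) {m : ℕ} {bu gu bl gl : ℚ}
    (h5 : X.c5 m bu gu bl gl = true) {S J : ℕ} {f1 f2 g1 g2 f1' f2' g1' g2' : ℚ}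
    (h8 : X.c8 S J f1 f2 g1 g2 f1' f2' g1' g2' = true) (h10 : X.c10 3 = true)
    {kq : ℕ} {M1 : List (List (ℤ × ℤ))} (hM : X.ckM 3 kq M1 = true)
    {t : Tab} {bas : List Mo} {prs : List (Mo × Mo)} {Bt : List (List (List ℕ))}
    {n W K : ℕ} (ht : TabOK t bas prs Bt n W K) (C : Cert) (h : check t n W K C = true)
    (hP : C.P = X.P.par) (hqf : C.qf = qfM C.P (mf M1)) (heta : 0 < C.eta) : PtOK X.P.par := by
  obtain ⟨k1, k2, k3, k4, k5, k6, k7⟩ := X.pf' h1 h2 h3 h6 h7 h5 h8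
  have hpf := X.pf_drop h1 (by linarith) k3 h10 k7
  have hk := ckM_pos hM
  have hN : (0 : ℝ) < X.P.N / kq := div_pos (X.N_pos h1) hk
  have hs : X.P.sC = ((C.P.p : ℂ) + C.P.q * Complex.I) / C.P.sr := by
    rw [hP]
    exact X.P.sC_eq
  have hb : X.P.bR = (C.P.bn : ℝ) / C.P.bd := by
    rw [hP]
    exact X.P.bR_eq
  have hc := hc_of_cert ht C h (mf M1) hqf X.QC2 hN hs hb (by
    intro r hr t ht
    rw [hP, ← xsc4_eq _ hr, ← xsc4_eq _ ht]
    exact div_aux hk (X.QC2_eq h1 r t) (ckM_gv hM hr ht))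
  refine X.P.ptOK_of_LS k3 (core_g k1 k2 k3 k4 k5 k6 X.QC2 hpf (relsC C (X.P.N / kq) Bt)
    (η := (C.eta : ℝ) / (X.P.N / kq)) ?_ hc)
  have h11 : (0 : ℝ) < (C.eta : ℝ) := by exact_mod_cast heta
  exact div_pos h11 hN

end AP2

end Pool.Agent.Helper65.HR2
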