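import Mathlib
import Pool.Agent.Helper24.HR2.NumM2
import Pool.Agent.Helper53.HR2.EsQ

/-!
MP_16b0ee, project HR2, stage 3: a computable two-sided enclosure of `MM s b 0 0`, for
`b = B / D`, `2 re s + 2 = R / D` (natural numbers). The partial sum is computed by the recursion
`CN_rec` in scaled integers (rounded up, rounded down), the tail is estimated by `MM_upper` and
`MM_lower`; their hypotheses (for all `N ≥ J`) are verified by the nonnegativity of the coefficients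
of explicit polynomials in `x = N - J`.
-/

set_option autoImplicit false

open Filter Topology
open scoped Real

namespace Pool.Agent.Helper53.HR2

open Pool.Agent.Helper24.HR2
open Pool.Agent.Helper24.HR2.NB Pool.Agent.Helper24.HR2.NM
open Pool.Agent.Helper22.Half

/-! integer division -/

theorem div_up (x : ℕ) {y : ℕ} (hy : 0 < y) : (x : ℝ) / y ≤ ((x / y + 1 : ℕ) : ℝ) := by
  have h := Nat.lt_mul_div_succ x hy
  have hy' : (0 : ℝ) < y := by exact_mod_cast hy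
  rw [div_le_iff₀ hy']
  have h2 : (x : ℝ) < ((y * (x / y + 1) : ℕ) : ℝ) := by exact_mod_cast h
  rw [Nat.cast_mul] at h2
  linarith

theorem div_dn (x y : ℕ) : ((x / y : ℕ) : ℝ) ≤ (x : ℝ) / y := Nat.cast_div_le

/-! the recursion, rounded up and rounded down -/

/-- one step of the moments -/
def gNum (D R N g : ℕ) : ℕ := g * (R + N * D)

/-- one step of the convolutions -/
def cNum (D B R N c g : ℕ) : ℕ := (N * D + 2 * R) * c + (2 * B + 4 * D) * g

def goU (D B R : ℕ) : ℕ → ℕ → ℕ → ℕ → ℕ → ℕ × ℕ × ℕ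
  | 0, _, g, c, s => (g, c, s)
  | k + 1, N, g, c, s =>
    goU D B R k (N + 1) (gNum D R N g / (B + 3 * D + N * D) + 1)
      (cNum D B R N c (gNum D R N g / (B + 3 * D + N * D) + 1) / (N * D + 2 * B + 5 * D) + 1)
      (s + (c * (D * D) / ((B + (N + 2) * D) * (B + (N + 3) * D)) + 1))

def goL (D B R : ℕ) : ℕ → ℕ → ℕ → ℕ → ℕ → ℕ × ℕ × ℕ
  | 0, _, g, c, s => (g, c, s)
  | k + 1, N, g, c, s =>
    goL D B R k (N + 1) (gNum D R N g / (B + 3 * D + N * D))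
      (cNum D B R N c (gNum D R N g / (B + 3 * D + N * D)) / (N * D + 2 * B + 5 * D))
      (s + c * (D * D) / ((B + (N + 2) * D) * (B + (N + 3) * D)))

theorem cNum_cast (D B R N c g : ℕ) : ((cNum D B R N c g : ℕ) : ℝ)
    = ((N * D + 2 * R : ℕ) : ℝ) * c + ((2 * B + 4 * D : ℕ) : ℝ) * g := by
  unfold cNum
  push_cast
  ring

theorem gNum_cast (D R N g : ℕ) : ((gNum D R N g : ℕ) : ℝ) = (g : ℝ) * ((R + N * D : ℕ) : ℝ) := by
  unfold gNum
  push_cast
  ring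

section steps

variable {s : ℂ} {D B R : ℕ}

/-- the partial sums -/
noncomputable def PS (s : ℂ) (b : ℝ) (N : ℕ) : ℝ :=
  ∑ i ∈ Finset.range N, CN s b 0 0 i / ((b + i + 2) * (b + i + 3))

theorem gm_step (hD : 0 < D) (hr : 2 * s.re + 2 = (R : ℝ) / D) (N : ℕ) :
    Gm s ((B : ℝ) / D) (N + 1)
      = Gm s ((B : ℝ) / D) N * (((R + N * D : ℕ) : ℝ) / ((B + 3 * D + N * D : ℕ) : ℝ)) := by
  have hD' : (0 : ℝ) < D := by exact_mod_cast hD
  rw [Gm_succ, hr]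
  congr 1
  push_cast
  have h1 : (0 : ℝ) < (B : ℝ) + 3 * D + N * D := by positivity
  field_simp

theorem cn_step (hD : 0 < D) (hB : 0 < B) (hr : 2 * s.re + 2 = (R : ℝ) / D) (N : ℕ) :
    CN s ((B : ℝ) / D) 0 0 (N + 1)
      = (((N * D + 2 * R : ℕ) : ℝ) * CN s ((B : ℝ) / D) 0 0 N
          + ((2 * B + 4 * D : ℕ) : ℝ) * Gm s ((B : ℝ) / D) (N + 1))
        / ((N * D + 2 * B + 5 * D : ℕ) : ℝ) := by
  have hD' : (0 : ℝ) < D := by exact_mod_cast hD
  have hB' : (0 : ℝ) < B := by exact_mod_cast hB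
  have hb : (0 : ℝ) < (B : ℝ) / D := div_pos hB' hD'
  have h := CN_rec (s := s) hb N
  have e : (N : ℝ) + 4 * s.re + 4 = N + 2 * ((R : ℝ) / D) := by rw [← hr]; ring
  rw [e] at h
  push_cast
  have h1 : (0 : ℝ) < (N : ℝ) * D + 2 * B + 5 * D := by positivity
  rw [eq_div_iff h1.ne']
  have h2 : ((N : ℝ) + 2 * ((B : ℝ) / D) + 5) * D = N * D + 2 * B + 5 * D := by
    field_simp
  have h3 : ((N : ℝ) + 2 * ((R : ℝ) / D)) * D = N * D + 2 * R := by
    field_simp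
  have h4 : (2 * ((B : ℝ) / D + 2)) * D = 2 * B + 4 * D := by
    field_simp
    ring
  rw [← h2, ← h3, ← h4]
  linear_combination (D : ℝ) * h

theorem ps_step (hD : 0 < D) (N : ℕ) :
    PS s ((B : ℝ) / D) (N + 1) = PS s ((B : ℝ) / D) N + CN s ((B : ℝ) / D) 0 0 N
      * (((D * D : ℕ) : ℝ) / (((B + (N + 2) * D) * (B + (N + 3) * D) : ℕ) : ℝ)) := by
  have hD' : (0 : ℝ) < D := by exact_mod_cast hD
  unfold PS
  rw [Finset.sum_range_succ]
  congr 1
  push_cast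
  have h1 : (0 : ℝ) < (B : ℝ) + (N + 2) * D := by positivity
  have h2 : (0 : ℝ) < (B : ℝ) + (N + 3) * D := by positivity
  have h3 : (B : ℝ) / D + N + 2 = ((B : ℝ) + (N + 2) * D) / D := by
    field_simp
    ring
  have h4 : (B : ℝ) / D + N + 3 = ((B : ℝ) + (N + 3) * D) / D := by
    field_simp
    ring
  rw [h3, h4]
  field_simp

theorem goU_spec (hD : 0 < D) (hB : 0 < B) (hs : -1 < s.re) (hr : 2 * s.re + 2 = (R : ℝ) / D)
    {S : ℝ} (hS : 0 ≤ S) : ∀ (k N g c t : ℕ), S * Gm s ((B : ℝ) / D) N ≤ g →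
      S * CN s ((B : ℝ) / D) 0 0 N ≤ c → S * PS s ((B : ℝ) / D) N ≤ t →
      S * Gm s ((B : ℝ) / D) (N + k) ≤ (goU D B R k N g c t).1 ∧
      S * CN s ((B : ℝ) / D) 0 0 (N + k) ≤ (goU D B R k N g c t).2.1 ∧
      S * PS s ((B : ℝ) / D) (N + k) ≤ (goU D B R k N g c t).2.2
  | 0, N, g, c, t, h1, h2, h3 => ⟨h1, h2, h3⟩
  | k + 1, N, g, c, t, h1, h2, h3 => by
    have e : N + (k + 1) = N + 1 + k := by ring
    rw [e, goU]
    have p1 : 0 < B + 3 * D + N * D := by omega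
    have p2 : 0 < N * D + 2 * B + 5 * D := by omega
    have p3 : 0 < (B + (N + 2) * D) * (B + (N + 3) * D) := by positivity
    have q1 : (0 : ℝ) < ((B + 3 * D + N * D : ℕ) : ℝ) := by exact_mod_cast p1
    have q2 : (0 : ℝ) < ((N * D + 2 * B + 5 * D : ℕ) : ℝ) := by exact_mod_cast p2
    have q3 : (0 : ℝ) < (((B + (N + 2) * D) * (B + (N + 3) * D) : ℕ) : ℝ) := by exact_mod_cast p3
    have hg : S * Gm s ((B : ℝ) / D) (N + 1)
        ≤ ((gNum D R N g / (B + 3 * D + N * D) + 1 : ℕ) : ℝ) := by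
      refine le_trans ?_ (div_up _ p1)
      rw [gm_step hD hr, ← mul_assoc, gNum_cast, mul_div_assoc]
      exact mul_le_mul_of_nonneg_right h1 (by positivity)
    have hc : S * CN s ((B : ℝ) / D) 0 0 (N + 1)
        ≤ ((cNum D B R N c (gNum D R N g / (B + 3 * D + N * D) + 1)
            / (N * D + 2 * B + 5 * D) + 1 : ℕ) : ℝ) := by
      refine le_trans ?_ (div_up _ p2)
      rw [cn_step hD hB hr, ← mul_div_assoc]
      refine div_le_div_of_nonneg_right ?_ q2.le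
      rw [cNum_cast]
      have i1 : ((N * D + 2 * R : ℕ) : ℝ) * (S * CN s ((B : ℝ) / D) 0 0 N)
          ≤ ((N * D + 2 * R : ℕ) : ℝ) * c := mul_le_mul_of_nonneg_left h2 (Nat.cast_nonneg _)
      have i2 := mul_le_mul_of_nonneg_left hg (Nat.cast_nonneg (α := ℝ) (2 * B + 4 * D))
      linarith
    have hp : S * PS s ((B : ℝ) / D) (N + 1)
        ≤ ((t + (c * (D * D) / ((B + (N + 2) * D) * (B + (N + 3) * D)) + 1) : ℕ) : ℝ) := by
      have hd := div_up (c * (D * D)) p3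
      rw [ps_step hD, Nat.cast_add t, mul_add S]
      refine add_le_add h3 (le_trans ?_ hd)
      rw [Nat.cast_mul c, mul_div_assoc, ← mul_assoc]
      exact mul_le_mul_of_nonneg_right h2 (div_nonneg (Nat.cast_nonneg _) q3.le)
    exact goU_spec hD hB hs hr hS k (N + 1) _ _ _ hg hc hp

theorem goL_spec (hD : 0 < D) (hB : 0 < B) (hs : -1 < s.re) (hr : 2 * s.re + 2 = (R : ℝ) / D)
    {S : ℝ} (hS : 0 ≤ S) : ∀ (k N g c t : ℕ), (g : ℝ) ≤ S * Gm s ((B : ℝ) / D) N →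
      (c : ℝ) ≤ S * CN s ((B : ℝ) / D) 0 0 N → (t : ℝ) ≤ S * PS s ((B : ℝ) / D) N →
      ((goL D B R k N g c t).1 : ℝ) ≤ S * Gm s ((B : ℝ) / D) (N + k) ∧
      ((goL D B R k N g c t).2.1 : ℝ) ≤ S * CN s ((B : ℝ) / D) 0 0 (N + k) ∧
      ((goL D B R k N g c t).2.2 : ℝ) ≤ S * PS s ((B : ℝ) / D) (N + k)
  | 0, N, g, c, t, h1, h2, h3 => ⟨h1, h2, h3⟩
  | k + 1, N, g, c, t, h1, h2, h3 => by
    have e : N + (k + 1) = N + 1 + k := by ring
    rw [e, goL]
    have p1 : 0 < B + 3 * D + N * D := by omega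
    have p2 : 0 < N * D + 2 * B + 5 * D := by omega
    have p3 : 0 < (B + (N + 2) * D) * (B + (N + 3) * D) := by positivity
    have q1 : (0 : ℝ) < ((B + 3 * D + N * D : ℕ) : ℝ) := by exact_mod_cast p1
    have q2 : (0 : ℝ) < ((N * D + 2 * B + 5 * D : ℕ) : ℝ) := by exact_mod_cast p2
    have q3 : (0 : ℝ) < (((B + (N + 2) * D) * (B + (N + 3) * D) : ℕ) : ℝ) := by exact_mod_cast p3
    have hg : ((gNum D R N g / (B + 3 * D + N * D) : ℕ) : ℝ)
        ≤ S * Gm s ((B : ℝ) / D) (N + 1) := by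
      refine le_trans (div_dn _ _) ?_
      rw [gm_step hD hr, ← mul_assoc, gNum_cast, mul_div_assoc]
      exact mul_le_mul_of_nonneg_right h1 (by positivity)
    have hc : ((cNum D B R N c (gNum D R N g / (B + 3 * D + N * D))
            / (N * D + 2 * B + 5 * D) : ℕ) : ℝ)
        ≤ S * CN s ((B : ℝ) / D) 0 0 (N + 1) := by
      refine le_trans (div_dn _ _) ?_
      rw [cn_step hD hB hr, ← mul_div_assoc]
      refine div_le_div_of_nonneg_right ?_ q2.le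
      rw [cNum_cast]
      have i1 : ((N * D + 2 * R : ℕ) : ℝ) * c
          ≤ ((N * D + 2 * R : ℕ) : ℝ) * (S * CN s ((B : ℝ) / D) 0 0 N) :=
        mul_le_mul_of_nonneg_left h2 (Nat.cast_nonneg _)
      have i2 := mul_le_mul_of_nonneg_left hg (Nat.cast_nonneg (α := ℝ) (2 * B + 4 * D))
      linarith
    have hp : ((t + c * (D * D) / ((B + (N + 2) * D) * (B + (N + 3) * D)) : ℕ) : ℝ)
        ≤ S * PS s ((B : ℝ) / D) (N + 1) := by
      have hd := div_dn (c * (D * D)) ((B + (N + 2) * D) * (B + (N + 3) * D))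
      rw [ps_step hD, Nat.cast_add t, mul_add S]
      refine add_le_add h3 (le_trans hd ?_)
      rw [Nat.cast_mul c, mul_div_assoc, ← mul_assoc]
      exact mul_le_mul_of_nonneg_right h2 (div_nonneg (Nat.cast_nonneg _) q3.le)
    exact goL_spec hD hB hs hr hS k (N + 1) _ _ _ hg hc hp

end steps

/-! the polynomials; `rho = 2 re s + 2` -/

/-- the bracket `(f1 (u + 1) + f2) (u + 2) - (f1 (u + 2) + f2) (N + w)`, `u = N + a` -/
def brk (f1 f2 a w j : ℚ) : List ℚ :=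
  padd (plin (j + a + 2) [f1 * (j + a + 1) + f2, f1])
    (psm (-1) (plin (j + w) [f1 * (j + a + 2) + f2, f1]))

def lhs1 (b j : ℚ) : List ℚ := plin (j + 2 * b + 5) (plin (j + 2 * b + 6) [j + 2 * b + 7, 1])

def rhs1 (f1 f2 b rho j : ℚ) : List ℚ :=
  plin (j + b + 2) (plin (j + b + 3) (brk f1 f2 (2 * b + 5) (2 * rho) j))

def lhs2 (f1 f2 b rho j : ℚ) : List ℚ :=
  psm (2 * (b + 2)) (plin (j + rho) (plin (j + b + 4) (plin (j + b + 5)
    [f1 * (j + 2 * b + 7) + f2, f1])))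

def rhs2 (g1 g2 b rho j : ℚ) : List ℚ :=
  plin (j + 2 * b + 5) (plin (j + 2 * b + 6) (plin (j + 2 * b + 7)
    (brk g1 g2 (b + 3) rho j)))

theorem pev_brk (f1 f2 a w j : ℚ) (x : ℝ) : pev (brk f1 f2 a w j) x
    = (f1 * ((x + j) + a + 1) + f2) * ((x + j) + a + 2)
      - (f1 * ((x + j) + a + 2) + f2) * ((x + j) + w) := by
  simp only [brk, pev_diff, pev_lin, pev]
  push_cast
  ring

theorem pev_lhs1 (b j : ℚ) (x : ℝ) : pev (lhs1 b j) x
    = ((x + j) + 2 * b + 5) * ((x + j) + 2 * b + 6) * ((x + j) + 2 * b + 7) := by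
  simp only [lhs1, pev_lin, pev]
  push_cast
  ring

theorem pev_rhs1 (f1 f2 b rho j : ℚ) (x : ℝ) : pev (rhs1 f1 f2 b rho j) x
    = ((x + j) + b + 2) * ((x + j) + b + 3)
      * ((f1 * ((x + j) + 2 * b + 6) + f2) * ((x + j) + 2 * b + 7)
        - (f1 * ((x + j) + 2 * b + 7) + f2) * ((x + j) + 2 * rho)) := by
  simp only [rhs1, pev_lin, pev_brk]
  push_cast
  ring

theorem pev_mlhs2 (f1 f2 b rho j : ℚ) (x : ℝ) : pev (lhs2 f1 f2 b rho j) x
    = 2 * (b + 2) * ((x + j) + rho) * (f1 * ((x + j) + 2 * b + 7) + f2)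
      * ((x + j) + b + 4) * ((x + j) + b + 5) := by
  simp only [lhs2, pev_sm, pev_lin, pev]
  push_cast
  ring

theorem pev_mrhs2 (g1 g2 b rho j : ℚ) (x : ℝ) : pev (rhs2 g1 g2 b rho j) x
    = ((x + j) + 2 * b + 5) * ((x + j) + 2 * b + 6) * ((x + j) + 2 * b + 7)
      * ((g1 * ((x + j) + b + 4) + g2) * ((x + j) + b + 5)
        - (g1 * ((x + j) + b + 5) + g2) * ((x + j) + rho)) := by
  simp only [rhs2, pev_lin, pev_brk]
  push_cast
  ring

/-- values of the test functions at `J` -/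
def phQ (f1 f2 b J : ℚ) : ℚ :=
  f1 / (J + 2 * b + 5) + f2 / ((J + 2 * b + 5) * (J + 2 * b + 6))

def chQ (g1 g2 b J : ℚ) : ℚ :=
  g1 / (J + b + 3) + g2 / ((J + b + 3) * (J + b + 4))

/-- all coefficients are nonnegative -/
def nn (l : List ℚ) : Bool := l.all (fun a => decide (0 ≤ a))

/-- the final value -/
def fin3 (x : ℕ × ℕ × ℕ) (p c : ℚ) : ℚ := x.2.2 + x.2.1 * p + x.1 * c

/-- the check: `S` the scale, `J` the cut, `f1 .. g2` the parameters of the upper bound,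
`f1' .. g2'` those of the lower bound -/
def mmC (D B R S J : ℕ) (f1 f2 g1 g2 f1' f2' g1' g2' Mlo Mhi : ℚ) : Bool :=
  decide (0 < D) && decide (0 < B) && decide (0 < S)
    && nn (padd (rhs1 f1 f2 ((B : ℚ) / D) ((R : ℚ) / D) J) (psm (-1) (lhs1 ((B : ℚ) / D) J)))
    && nn (padd (rhs2 g1 g2 ((B : ℚ) / D) ((R : ℚ) / D) J)
        (psm (-1) (lhs2 f1 f2 ((B : ℚ) / D) ((R : ℚ) / D) J)))
    && decide (0 ≤ phQ f1 f2 ((B : ℚ) / D) J) && decide (0 ≤ chQ g1 g2 ((B : ℚ) / D) J)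
    && decide (fin3 (goU D B R J 0 S S 0) (phQ f1 f2 ((B : ℚ) / D) J)
        (chQ g1 g2 ((B : ℚ) / D) J) ≤ S * Mhi)
    && nn (padd (lhs1 ((B : ℚ) / D) J)
        (psm (-1) (rhs1 f1' f2' ((B : ℚ) / D) ((R : ℚ) / D) J)))
    && nn (padd (lhs2 f1' f2' ((B : ℚ) / D) ((R : ℚ) / D) J)
        (psm (-1) (rhs2 g1' g2' ((B : ℚ) / D) ((R : ℚ) / D) J)))
    && decide (0 ≤ phQ f1' f2' ((B : ℚ) / D) J) && decide (0 ≤ chQ g1' g2' ((B : ℚ) / D) J)
    && decide (S * Mlo ≤ fin3 (goL D B R J 0 S S 0) (phQ f1' f2' ((B : ℚ) / D) J)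
        (chQ g1' g2' ((B : ℚ) / D) J))

theorem ph_cast (f1 f2 b : ℚ) (J : ℕ) : ((phQ f1 f2 b J : ℚ) : ℝ) = ph f1 f2 b J := by
  unfold phQ ph
  push_cast
  rfl

theorem ch_cast (g1 g2 b : ℚ) (J : ℕ) : ((chQ g1 g2 b J : ℚ) : ℝ) = ch g1 g2 b J := by
  unfold chQ ch
  push_cast
  rfl

/-- rational form of the first difference -/
theorem ph_diff {f1 f2 b w : ℝ} (hb : 0 < b) (N : ℕ) :
    ph f1 f2 b N - ph f1 f2 b (N + 1) * ((N + w) / (N + 2 * b + 5))
      = ((f1 * (N + 2 * b + 6) + f2) * (N + 2 * b + 7) - (f1 * (N + 2 * b + 7) + f2) * (N + w))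
        / ((N + 2 * b + 5) * (N + 2 * b + 6) * (N + 2 * b + 7)) := by
  have hN : (0 : ℝ) ≤ N := Nat.cast_nonneg N
  have h1 : (0 : ℝ) < (N : ℝ) + 2 * b + 5 := by linarith
  have h2 : (0 : ℝ) < (N : ℝ) + 2 * b + 6 := by linarith
  have h3 : (0 : ℝ) < (N : ℝ) + 2 * b + 7 := by linarith
  unfold ph
  have e1 : (((N + 1 : ℕ) : ℝ)) + 2 * b + 5 = N + 2 * b + 6 := by push_cast; ring
  have e2 : (((N + 1 : ℕ) : ℝ)) + 2 * b + 6 = N + 2 * b + 7 := by push_cast; ring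
  rw [e1, e2]
  field_simp

theorem ch_diff {g1 g2 b w : ℝ} (hb : 0 < b) (N : ℕ) :
    ch g1 g2 b N - ch g1 g2 b (N + 1) * ((w + N) / (b + 3 + N))
      = ((g1 * (N + b + 4) + g2) * (N + b + 5) - (g1 * (N + b + 5) + g2) * (N + w))
        / ((N + b + 3) * (N + b + 4) * (N + b + 5)) := by
  have hN : (0 : ℝ) ≤ N := Nat.cast_nonneg N
  have h1 : (0 : ℝ) < (N : ℝ) + b + 3 := by linarith
  have h2 : (0 : ℝ) < (N : ℝ) + b + 4 := by linarith
  have h3 : (0 : ℝ) < (N : ℝ) + b + 5 := by linarith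
  unfold ch
  have e1 : (((N + 1 : ℕ) : ℝ)) + b + 3 = N + b + 4 := by push_cast; ring
  have e2 : (((N + 1 : ℕ) : ℝ)) + b + 4 = N + b + 5 := by push_cast; ring
  have e3 : b + 3 + (N : ℝ) = N + b + 3 := by ring
  rw [e1, e2, e3]
  field_simp
  ring

theorem ph_next {f1 f2 b : ℝ} (hb : 0 < b) (N : ℕ) :
    ph f1 f2 b (N + 1) = (f1 * (N + 2 * b + 7) + f2) / ((N + 2 * b + 6) * (N + 2 * b + 7)) := by
  have hN : (0 : ℝ) ≤ N := Nat.cast_nonneg N
  have h2 : (0 : ℝ) < (N : ℝ) + 2 * b + 6 := by linarith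
  have h3 : (0 : ℝ) < (N : ℝ) + 2 * b + 7 := by linarith
  unfold ph
  have e1 : (((N + 1 : ℕ) : ℝ)) + 2 * b + 5 = N + 2 * b + 6 := by push_cast; ring
  have e2 : (((N + 1 : ℕ) : ℝ)) + 2 * b + 6 = N + 2 * b + 7 := by push_cast; ring
  rw [e1, e2]
  field_simp

/-- the enclosure -/
theorem mmC_sound {s : ℂ} {b : ℝ} {D B R S J : ℕ} {f1 f2 g1 g2 f1' f2' g1' g2' Mlo Mhi : ℚ}
    (hs : -1 < s.re) (hbB : b = (B : ℝ) / D) (hr : 2 * s.re + 2 = (R : ℝ) / D)
    (hσ : 0 < b + 1 - 2 * s.re)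
    (h : mmC D B R S J f1 f2 g1 g2 f1' f2' g1' g2' Mlo Mhi = true) :
    (Mlo : ℝ) ≤ MM s b 0 0 ∧ MM s b 0 0 ≤ Mhi := by
  simp only [mmC, Bool.and_eq_true, decide_eq_true_eq] at h
  obtain ⟨⟨⟨⟨⟨⟨⟨⟨⟨⟨⟨⟨h1, h2⟩, h3⟩, h4⟩, h5⟩, h6⟩, h7⟩, h8⟩, h9⟩, h10⟩, h11⟩, h12⟩, h13⟩ := h
  have hD : (0 : ℝ) < D := by exact_mod_cast h1
  have hB : (0 : ℝ) < B := by exact_mod_cast h2
  have hb : 0 < b := by rw [hbB]; exact div_pos hB hD
  have hbq : (((B : ℚ) / D : ℚ) : ℝ) = b := by rw [hbB]; push_cast; rfl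
  have hrq : (((R : ℚ) / D : ℚ) : ℝ) = 2 * s.re + 2 := by rw [hr]; push_cast; rfl
  have key : ∀ N : ℕ, J ≤ N → ∃ x : ℝ, 0 ≤ x ∧ (x + ((J : ℚ) : ℝ)) = N := by
    intro k hk
    refine ⟨(k : ℝ) - J, ?_, ?_⟩
    · have : (J : ℝ) ≤ k := by exact_mod_cast hk
      linarith
    · push_cast
      ring
  have w4 : ∀ N : ℕ, (N : ℝ) + 4 * s.re + 4 = N + 2 * (2 * s.re + 2) := fun N => by ring
  have hS : (0 : ℝ) < S := by exact_mod_cast h3
  constructor
  · -- lower bound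
    have a1 : ∀ N : ℕ, J ≤ N →
        ph f1' f2' b N - ph f1' f2' b (N + 1) * ((N + 4 * s.re + 4) / (N + 2 * b + 5))
          ≤ 1 / ((b + N + 2) * (b + N + 3)) := by
      intro N hN
      obtain ⟨x, hx, hxN⟩ := key N hN
      have hp := pev_nonneg hx h9
      rw [pev_diff, pev_lhs1, pev_rhs1, hxN, hbq, hrq] at hp
      have hN0 : (0 : ℝ) ≤ N := Nat.cast_nonneg N
      rw [w4, ph_diff hb]
      have p1 : (0 : ℝ) < (N : ℝ) + 2 * b + 5 := by linarith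
      have p2 : (0 : ℝ) < (N : ℝ) + 2 * b + 6 := by linarith
      have p3 : (0 : ℝ) < (N : ℝ) + 2 * b + 7 := by linarith
      have p4 : (0 : ℝ) < b + (N : ℝ) + 2 := by linarith
      have p5 : (0 : ℝ) < b + (N : ℝ) + 3 := by linarith
      rw [div_le_div_iff₀ (by positivity) (by positivity)]
      linarith
    have a2 : ∀ N : ℕ, J ≤ N →
        ch g1' g2' b N - ch g1' g2' b (N + 1) * ((2 * s.re + 2 + N) / (b + 3 + N))
          ≤ ph f1' f2' b (N + 1) * (2 * (b + 2) * (2 * s.re + 2 + N)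
            / ((N + 2 * b + 5) * (b + 3 + N))) := by
      intro N hN
      obtain ⟨x, hx, hxN⟩ := key N hN
      have hp := pev_nonneg hx h10
      rw [pev_diff, pev_mlhs2, pev_mrhs2, hxN, hbq, hrq] at hp
      have hN0 : (0 : ℝ) ≤ N := Nat.cast_nonneg N
      rw [ch_diff hb, ph_next hb, div_mul_div_comm]
      have p1 : (0 : ℝ) < (N : ℝ) + 2 * b + 5 := by linarith
      have p2 : (0 : ℝ) < (N : ℝ) + 2 * b + 6 := by linarith
      have p3 : (0 : ℝ) < (N : ℝ) + 2 * b + 7 := by linarith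
      have p4 : (0 : ℝ) < (N : ℝ) + b + 3 := by linarith
      have p5 : (0 : ℝ) < (N : ℝ) + b + 4 := by linarith
      have p6 : (0 : ℝ) < (N : ℝ) + b + 5 := by linarith
      have p7 : (0 : ℝ) < b + 3 + (N : ℝ) := by linarith
      rw [div_le_div_iff₀ (by positivity) (by positivity)]
      nlinarith [mul_nonneg hp p4.le]
    have hl := MM_lower hs hb hσ J a1 a2
    obtain ⟨b1, b2, b3⟩ := goL_spec h1 h2 hs hr hS.le J 0 S S 0
      (by rw [Gm_zero, mul_one]) (by rw [CN_zero, Gm_zero]; simp) (by simp [PS])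
    rw [zero_add] at b1 b2 b3
    rw [← hbB] at b1 b2 b3
    have c1 : (0 : ℝ) ≤ ph f1' f2' b J := by
      rw [← hbq, ← ph_cast]; exact_mod_cast h11
    have c2 : (0 : ℝ) ≤ ch g1' g2' b J := by
      rw [← hbq, ← ch_cast]; exact_mod_cast h12
    have d1 : ((S * Mlo : ℚ) : ℝ) ≤ ((fin3 (goL D B R J 0 S S 0) (phQ f1' f2' ((B : ℚ) / D) J)
        (chQ g1' g2' ((B : ℚ) / D) J) : ℚ) : ℝ) := by exact_mod_cast h13
    unfold fin3 at d1
    push_cast [ph_cast, ch_cast] at d1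
    rw [← hbB] at d1
    have e1 := mul_le_mul_of_nonneg_right b2 c1
    have e2 := mul_le_mul_of_nonneg_right b1 c2
    have e3 : (S : ℝ) * Mlo ≤ S * MM s b 0 0 := by
      have := mul_le_mul_of_nonneg_left hl hS.le
      unfold PS at b3
      linarith
    exact le_of_mul_le_mul_left e3 hS
  · -- upper bound
    have a1 : ∀ N : ℕ, J ≤ N → 1 / ((b + N + 2) * (b + N + 3))
        ≤ ph f1 f2 b N - ph f1 f2 b (N + 1) * ((N + 4 * s.re + 4) / (N + 2 * b + 5)) := by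
      intro N hN
      obtain ⟨x, hx, hxN⟩ := key N hN
      have hp := pev_nonneg hx h4
      rw [pev_diff, pev_lhs1, pev_rhs1, hxN, hbq, hrq] at hp
      have hN0 : (0 : ℝ) ≤ N := Nat.cast_nonneg N
      rw [w4, ph_diff hb]
      have p1 : (0 : ℝ) < (N : ℝ) + 2 * b + 5 := by linarith
      have p2 : (0 : ℝ) < (N : ℝ) + 2 * b + 6 := by linarith
      have p3 : (0 : ℝ) < (N : ℝ) + 2 * b + 7 := by linarith
      have p4 : (0 : ℝ) < b + (N : ℝ) + 2 := by linarith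
      have p5 : (0 : ℝ) < b + (N : ℝ) + 3 := by linarith
      rw [div_le_div_iff₀ (by positivity) (by positivity)]
      linarith
    have a2 : ∀ N : ℕ, J ≤ N →
        ph f1 f2 b (N + 1) * (2 * (b + 2) * (2 * s.re + 2 + N)
            / ((N + 2 * b + 5) * (b + 3 + N)))
          ≤ ch g1 g2 b N - ch g1 g2 b (N + 1) * ((2 * s.re + 2 + N) / (b + 3 + N)) := by
      intro N hN
      obtain ⟨x, hx, hxN⟩ := key N hN
      have hp := pev_nonneg hx h5
      rw [pev_diff, pev_mlhs2, pev_mrhs2, hxN, hbq, hrq] at hp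
      have hN0 : (0 : ℝ) ≤ N := Nat.cast_nonneg N
      rw [ch_diff hb, ph_next hb, div_mul_div_comm]
      have p1 : (0 : ℝ) < (N : ℝ) + 2 * b + 5 := by linarith
      have p2 : (0 : ℝ) < (N : ℝ) + 2 * b + 6 := by linarith
      have p3 : (0 : ℝ) < (N : ℝ) + 2 * b + 7 := by linarith
      have p4 : (0 : ℝ) < (N : ℝ) + b + 3 := by linarith
      have p5 : (0 : ℝ) < (N : ℝ) + b + 4 := by linarith
      have p6 : (0 : ℝ) < (N : ℝ) + b + 5 := by linarith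
      have p7 : (0 : ℝ) < b + 3 + (N : ℝ) := by linarith
      rw [div_le_div_iff₀ (by positivity) (by positivity)]
      nlinarith [mul_nonneg hp p4.le]
    have hl := MM_upper hs hb hσ J a1 a2
    obtain ⟨b1, b2, b3⟩ := goU_spec h1 h2 hs hr hS.le J 0 S S 0
      (by rw [Gm_zero, mul_one]) (by rw [CN_zero, Gm_zero]; simp) (by simp [PS])
    rw [zero_add] at b1 b2 b3
    rw [← hbB] at b1 b2 b3
    have c1 : (0 : ℝ) ≤ ph f1 f2 b J := by
      rw [← hbq, ← ph_cast]; exact_mod_cast h6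
    have c2 : (0 : ℝ) ≤ ch g1 g2 b J := by
      rw [← hbq, ← ch_cast]; exact_mod_cast h7
    have d1 : ((fin3 (goU D B R J 0 S S 0) (phQ f1 f2 ((B : ℚ) / D) J)
        (chQ g1 g2 ((B : ℚ) / D) J) : ℚ) : ℝ) ≤ ((S * Mhi : ℚ) : ℝ) := by exact_mod_cast h8
    unfold fin3 at d1
    push_cast [ph_cast, ch_cast] at d1
    rw [← hbB] at d1
    have e1 := mul_le_mul_of_nonneg_right b2 c1
    have e2 := mul_le_mul_of_nonneg_right b1 c2
    have e3 : (S : ℝ) * MM s b 0 0 ≤ S * Mhi := by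
      have := mul_le_mul_of_nonneg_left hl hS.le
      unfold PS at b3
      linarith
    exact le_of_mul_le_mul_left e3 hS

end Pool.Agent.Helper53.HR2
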